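import Mathlib

namespace Pool.Agent.Results.MP_eefcda_al.FinitelyGeneratedCP

/-- A categorical quasiproduct structure on a monoid. -/
structure CQP (M : Type) [Monoid M] where
  pair : M → M → M
  p1 : M
  p2 : M
  p1_pair : ∀ a b : M, p1 * pair a b = a
  p2_pair : ∀ a b : M, p2 * pair a b = b
  pair_mul : ∀ a b c : M, pair a b * c = pair (a * c) (b * c)

/-- The CP condition `Σ(π₁, π₂) = 1`. -/
def CQP.IsCP {M : Type} [Monoid M] (C : CQP M) : Prop := C.pair C.p1 C.p2 = 1

section
variable {M : Type} [Monoid M] (C : CQP M)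

def th (a : M) : M := C.pair (a * C.p1) C.p2
def dl : M := C.pair 1 1
def sw : M := C.pair C.p2 C.p1
def al : M := C.pair (C.p1 * C.p1) (C.pair (C.p2 * C.p1) C.p2)
def be : M := C.pair (C.pair C.p1 (C.p1 * C.p2)) (C.p2 * C.p2)

theorem p1_mul (a b c : M) : C.p1 * (C.pair a b * c) = a * c := by
  rw [← mul_assoc, C.p1_pair]

theorem p2_mul (a b c : M) : C.p2 * (C.pair a b * c) = b * c := by
  rw [← mul_assoc, C.p2_pair]

theorem th_mul (a b : M) : th C (a * b) = th C a * th C b := by
  simp only [th, C.pair_mul, mul_assoc, C.p1_pair, C.p2_pair]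

theorem th_th (g : M) : th C (th C g) = be C * th C g * al C := by
  simp only [th, be, al, C.pair_mul, mul_assoc, C.p1_pair, C.p2_pair]

theorem pair_eq (a b : M) : C.pair a b = th C a * (sw C * th C b * sw C) * dl C := by
  simp only [th, sw, dl, C.pair_mul, mul_assoc, C.p1_pair, C.p2_pair, mul_one]

/-- The finite generating set. -/
def gens : Set M := {C.p1, C.p2, dl C, sw C, al C, be C, th C C.p1, th C C.p2, th C (dl C),
  th C (sw C), th C (al C), th C (be C)}

/-- The submonoid it generates. -/
def N : Submonoid M := Submonoid.closure (gens C)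

theorem mem_gens {x : M} (h : x ∈ gens C) : x ∈ N C := Submonoid.subset_closure h

theorem th_mem (hC : C.IsCP) (a : M) (ha : a ∈ N C) : th C a ∈ N C := by
  induction ha using Submonoid.closure_induction with
  | mem x hx =>
    have hal : al C ∈ N C := mem_gens C (by simp [gens])
    have hbe : be C ∈ N C := mem_gens C (by simp [gens])
    have key : ∀ g, th C g ∈ N C → th C (th C g) ∈ N C := by
      intro g hg
      rw [th_th]
      exact mul_mem (mul_mem hbe hg) hal
    have h1 : th C C.p1 ∈ N C := mem_gens C (by simp [gens])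
    have h2 : th C C.p2 ∈ N C := mem_gens C (by simp [gens])
    have h3 : th C (dl C) ∈ N C := mem_gens C (by simp [gens])
    have h4 : th C (sw C) ∈ N C := mem_gens C (by simp [gens])
    have h5 : th C (al C) ∈ N C := mem_gens C (by simp [gens])
    have h6 : th C (be C) ∈ N C := mem_gens C (by simp [gens])
    simp only [gens, Set.mem_insert_iff, Set.mem_singleton_iff] at hx
    rcases hx with rfl | rfl | rfl | rfl | rfl | rfl | rfl | rfl | rfl | rfl | rfl | rfl
    · exact h1
    · exact h2
    · exact h3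
    · exact h4
    · exact h5
    · exact h6
    · exact key _ h1
    · exact key _ h2
    · exact key _ h3
    · exact key _ h4
    · exact key _ h5
    · exact key _ h6
  | one =>
    have : th C 1 = 1 := by rw [th, one_mul]; exact hC
    rw [this]
    exact one_mem _
  | mul x y hx hy h1 h2 =>
    rw [th_mul]
    exact mul_mem h1 h2

theorem pair_mem (hC : C.IsCP) (a b : M) (ha : a ∈ N C) (hb : b ∈ N C) : C.pair a b ∈ N C := by
  rw [pair_eq]
  have hsw : sw C ∈ N C := mem_gens C (by simp [gens])
  have hdl : dl C ∈ N C := mem_gens C (by simp [gens])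
  exact mul_mem (mul_mem (th_mem C hC a ha) (mul_mem (mul_mem hsw (th_mem C hC b hb)) hsw)) hdl

/-- The CQP structure on the submonoid. -/
def NC (hC : C.IsCP) : CQP (N C) where
  pair a b := ⟨C.pair a b, pair_mem C hC a b a.2 b.2⟩
  p1 := ⟨C.p1, mem_gens C (by simp [gens])⟩
  p2 := ⟨C.p2, mem_gens C (by simp [gens])⟩
  p1_pair a b := Subtype.ext (C.p1_pair a b)
  p2_pair a b := Subtype.ext (C.p2_pair a b)
  pair_mul a b c := Subtype.ext (C.pair_mul a b c)

end

/-- The CP monoid of self-maps of `ℕ`, from the pairing bijection `ℕ × ℕ ≃ ℕ`. -/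
def endCP : CQP (Function.End ℕ) where
  pair a b := fun x => Nat.pair (a x) (b x)
  p1 := fun x => (Nat.unpair x).1
  p2 := fun x => (Nat.unpair x).2
  p1_pair a b := by
    funext x
    show (Nat.unpair (Nat.pair (a x) (b x))).1 = a x
    rw [Nat.unpair_pair]
  p2_pair a b := by
    funext x
    show (Nat.unpair (Nat.pair (a x) (b x))).2 = b x
    rw [Nat.unpair_pair]
  pair_mul a b c := rfl

theorem endCP_isCP : endCP.IsCP := by
  funext x
  exact Nat.pair_unpair x

theorem result : ∃ (M : Type) (_ : Monoid M) (C : CQP M),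
    C.IsCP ∧ Nontrivial M ∧ Monoid.FG M := by
  refine ⟨N endCP, inferInstance, NC endCP endCP_isCP, Subtype.ext endCP_isCP, ?_, ?_⟩
  · refine ⟨⟨⟨endCP.p1, mem_gens _ (by simp [gens])⟩, 1, ?_⟩⟩
    intro h
    have h1 : endCP.p1 = 1 := congrArg Subtype.val h
    have h2 : (Nat.unpair 2).1 = 2 := congrFun h1 2
    have h3 : Nat.unpair 2 = (1, 0) := Nat.unpair_pair 1 0
    rw [h3] at h2
    exact absurd h2 (by decide)
  · exact (Monoid.fg_iff_submonoid_fg (N endCP)).mpr
      ((Submonoid.fg_iff _).mpr ⟨gens endCP, rfl, by unfold gens; exact Set.toFinite _⟩)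

end Pool.Agent.Results.MP_eefcda_al.FinitelyGeneratedCP
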